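import Pool.Agent.J6H66.KR.Words
import Pool.Agent.J6H66.FM.Jac

set_option autoImplicit false
set_option linter.unusedSectionVars false
set_option linter.unusedVariables false

/-! # Words in generic matrices: the charts

The chart at a general point of the divisor over the locus where the first `d + 1` words are
linearly dependent. -/

namespace Pool.Agent.J6H66.KR

open MvPowerSeries Pool.Agent.W574.SM Pool.Agent.TH192.DT

variable {s r n : ℕ}

open Classical in
/-- the position of a row in the list, or `n` -/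
noncomputable def ps (L : ℕ → Row s r n) (N : ℕ) (row : Row s r n) : ℕ :=
  if h : ∃ ρ, ρ < N ∧ L ρ = row then h.choose else n

theorem ps_L {L : ℕ → Row s r n} {N : ℕ} (hL : IsWordList L N) {ρ : ℕ} (hρ : ρ < N) :
    ps L N (L ρ) = ρ := by
  have h : ∃ ρ', ρ' < N ∧ L ρ' = L ρ := ⟨ρ, hρ, rfl⟩
  rw [ps, dif_pos h]
  exact hL.inj _ h.choose_spec.1 _ hρ h.choose_spec.2

theorem L_ps {L : ℕ → Row s r n} {N : ℕ} {row : Row s r n} (h : ps L N row < n) :
    ps L N row < N ∧ L (ps L N row) = row := by
  by_cases h1 : ∃ ρ, ρ < N ∧ L ρ = row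
  · have h2 : ps L N row = h1.choose := dif_pos h1
    rw [h2]
    exact h1.choose_spec
  · have h2 : ps L N row = n := dif_neg h1
    omega

/-- the coefficients of the base point -/
noncomputable def cf (L : ℕ → Row s r n) (d : ℕ) (lam : ℂ) (ρ : ℕ) : ℂ :=
  match L ρ with
  | Sum.inl _ => lam
  | Sum.inr (_, a) =>
    if _h : (a : ℕ) < ρ then (if (a : ℕ) < d then lam * cf L d lam a else lam) else lam
termination_by ρ

theorem cf_ne (L : ℕ → Row s r n) (d : ℕ) {lam : ℂ} (hlam : lam ≠ 0) (ρ : ℕ) :
    cf L d lam ρ ≠ 0 := by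
  induction ρ using Nat.strong_induction_on with
  | _ ρ ih =>
    rw [cf]
    split
    · exact hlam
    · split_ifs with h1 h2
      · exact mul_ne_zero hlam (ih _ h1)
      · exact hlam
      · exact hlam

theorem cf_inl (L : ℕ → Row s r n) (d : ℕ) (lam : ℂ) (ρ : ℕ) (i : Fin s)
    (h : L ρ = Sum.inl i) : cf L d lam ρ = lam := by
  rw [cf, h]

theorem cf_inr (L : ℕ → Row s r n) (d : ℕ) (lam : ℂ) (ρ : ℕ) (c : Fin r) (a : Fin n)
    (h : L ρ = Sum.inr (c, a)) (ha : (a : ℕ) < ρ) :
    cf L d lam ρ = if (a : ℕ) < d then lam * cf L d lam a else lam := by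
  rw [cf, h]
  simp only [dif_pos ha]

section

variable (L : ℕ → Row s r n) (N d : ℕ) (hdn : d ≤ n) (lam : ℂ)

/-- the entries of the free rows -/
noncomputable def fr (row : Row s r n) (k : Fin n) : MvPowerSeries (KVar s r n) ℂ :=
  C (if ps L N row = k then cf L d lam k else 0) + X (row, k)

/-- the coordinates on the exceptional divisor -/
noncomputable def yy (k : Fin n) : MvPowerSeries (KVar s r n) ℂ :=
  C (if (k : ℕ) = d then 1 else 0) + if (k : ℕ) = d then 0 else X (L d, k)

/-- the entries of the adapted rows, `w` is the coefficient of the exceptional part -/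
noncomputable def ww (w : MvPowerSeries (KVar s r n) ℂ) (row : Row s r n) (k : Fin n) :
    MvPowerSeries (KVar s r n) ℂ :=
  if ps L N row = d then
    (∑ a : Fin d, X (row, Fin.castLE hdn a) * fr L N d lam (L a) k) +
      (if d ≤ (k : ℕ) then w * yy L d k else 0)
  else fr L N d lam row k

/-- the frame -/
noncomputable def vv : Matrix (Fin n) (Fin n) (MvPowerSeries (KVar s r n) ℂ) :=
  Matrix.of fun a i => if (a : ℕ) < d then fr L N d lam (L a) i else C (if a = i then 1 else 0)

/-- the chart -/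
noncomputable def ze (z : KVar s r n) (t : KVar s r n) : MvPowerSeries (KVar s r n) ℂ :=
  match t.1 with
  | Sum.inl i => ww L N d hdn lam (X z) (Sum.inl i) t.2
  | Sum.inr (c, a) => ∑ b, (vv L N d lam)⁻¹ a b * ww L N d hdn lam (X z) (Sum.inr (c, b)) t.2

end

section

variable {L : ℕ → Row s r n} {N d : ℕ} (hL : IsWordList L N) (hd : d < N) {hdn : d ≤ n} {lam : ℂ}
  (hlam : lam ≠ 0) (z : KVar s r n)

include hL hd hlam

theorem cc_fr (row : Row s r n) (k : Fin n) :
    constantCoeff (fr L N d lam row k) = if ps L N row = k then cf L d lam k else 0 := by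
  rw [fr, map_add, constantCoeff_C, constantCoeff_X, add_zero]

/-- the constant coefficients of the diagonal of the frame -/
theorem cc_vv (a i : Fin n) : constantCoeff (vv L N d lam a i)
    = if a = i then (if (a : ℕ) < d then cf L d lam a else 1) else 0 := by
  rw [vv, Matrix.of_apply]
  by_cases h1 : (a : ℕ) < d
  · rw [if_pos h1, cc_fr hL hd hlam, ps_L hL (h1.trans hd)]
    by_cases h2 : a = i
    · rw [if_pos h2, if_pos h1, if_pos (by rw [h2]), h2]
    · rw [if_neg h2, if_neg fun h3 => h2 (Fin.ext h3)]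
  · rw [if_neg h1, constantCoeff_C]
    by_cases h2 : a = i
    · rw [if_pos h2, if_pos h2, if_neg h1]
    · rw [if_neg h2, if_neg h2]

theorem vv_unit : IsUnit (vv L N d lam).det := by
  rw [MvPowerSeries.isUnit_iff_constantCoeff, RingHom.map_det]
  have h1 : (constantCoeff : MvPowerSeries (KVar s r n) ℂ →+* ℂ).mapMatrix (vv L N d lam)
      = Matrix.diagonal fun a : Fin n => if (a : ℕ) < d then cf L d lam a else 1 := by
    ext1 a i
    rw [RingHom.mapMatrix_apply, Matrix.map_apply, cc_vv hL hd hlam, Matrix.diagonal_apply]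
  rw [h1, Matrix.det_diagonal, isUnit_iff_ne_zero]
  refine Finset.prod_ne_zero_iff.2 fun a _ => ?_
  split_ifs
  · exact cf_ne L d hlam _
  · exact one_ne_zero

theorem vv_ze (c : Fin r) (a k : Fin n) :
    ∑ i, vv L N d lam a i * ze L N d hdn lam z (Sum.inr (c, i), k)
      = ww L N d hdn lam (X z) (Sum.inr (c, a)) k := by
  have h1 : vv L N d lam * ((vv L N d lam)⁻¹ *
      Matrix.of fun b k => ww L N d hdn lam (X z) (Sum.inr (c, b)) k)
      = Matrix.of fun b k => ww L N d hdn lam (X z) (Sum.inr (c, b)) k := by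
    rw [← Matrix.mul_assoc, Matrix.mul_nonsing_inv _ (vv_unit hL hd hlam), Matrix.one_mul]
  have h2 := congrFun (congrFun h1 a) k
  rw [Matrix.mul_apply, Matrix.of_apply] at h2
  rw [← h2]
  refine Finset.sum_congr rfl fun i _ => ?_
  rw [Matrix.mul_apply]
  rfl

theorem ze_ge (c : Fin r) (a k : Fin n) (ha : d ≤ (a : ℕ)) :
    ze L N d hdn lam z (Sum.inr (c, a), k) = ww L N d hdn lam (X z) (Sum.inr (c, a)) k := by
  rw [← vv_ze hL hd hlam z c a k, Finset.sum_eq_single a]
  · rw [vv, Matrix.of_apply, if_neg (not_lt.2 ha), if_pos rfl, map_one, one_mul]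
  · intro b _ hb
    rw [vv, Matrix.of_apply, if_neg (not_lt.2 ha), if_neg (Ne.symm hb), map_zero, zero_mul]
  · intro h0; exact absurd (Finset.mem_univ _) h0

theorem cc_ww (row : Row s r n) (k : Fin n) :
    constantCoeff (ww L N d hdn lam (X z) row k)
      = if ps L N row = k ∧ (k : ℕ) ≠ d then cf L d lam k else 0 := by
  rw [ww]
  by_cases h1 : ps L N row = d
  · rw [if_pos h1, map_add, map_sum]
    have h2 : constantCoeff (if d ≤ (k : ℕ) then X z * yy L d k else
        (0 : MvPowerSeries (KVar s r n) ℂ)) = 0 := by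
      split_ifs
      · rw [map_mul, constantCoeff_X, zero_mul]
      · exact map_zero _
    rw [h2, add_zero, Finset.sum_eq_zero, if_neg]
    · rintro ⟨h3, h4⟩
      exact h4 (h3.symm.trans h1)
    · intro a _
      rw [map_mul, constantCoeff_X, zero_mul]
  · rw [if_neg h1, cc_fr hL hd hlam]
    by_cases h2 : ps L N row = k
    · rw [if_pos h2, if_pos ⟨h2, by rw [← h2]; exact h1⟩]
    · rw [if_neg h2, if_neg fun h3 => h2 h3.1]

/-- the base point -/
theorem cc_ze (t : KVar s r n) : constantCoeff (ze L N d hdn lam z t)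
    = lam * if ps L N t.1 = t.2 ∧ (t.2 : ℕ) ≠ d then 1 else 0 := by
  obtain ⟨row, k⟩ := t
  rcases row with i | ⟨c, a⟩
  · change constantCoeff (ww L N d hdn lam (X z) (Sum.inl i) k) = _
    rw [cc_ww hL hd hlam]
    by_cases h1 : ps L N (Sum.inl i) = k ∧ (k : ℕ) ≠ d
    · have h2 := L_ps (L := L) (N := N) (row := Sum.inl i) (by rw [h1.1]; exact k.2)
      rw [h1.1] at h2
      rw [if_pos h1, if_pos h1, mul_one, cf_inl L d lam k i h2.2]
    · rw [if_neg h1, if_neg h1, mul_zero]
  · have h1 := congrArg constantCoeff (vv_ze (hdn := hdn) hL hd hlam z c a k)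
    rw [map_sum, cc_ww hL hd hlam, Finset.sum_eq_single a] at h1
    · rw [map_mul, cc_vv hL hd hlam, if_pos rfl] at h1
      have h3 : (if (a : ℕ) < d then cf L d lam a else 1) ≠ 0 := by
        split_ifs
        · exact cf_ne L d hlam _
        · exact one_ne_zero
      apply mul_left_cancel₀ h3
      rw [h1]
      by_cases h4 : ps L N (Sum.inr (c, a)) = k ∧ (k : ℕ) ≠ d
      · have h2 := L_ps (L := L) (N := N) (row := Sum.inr (c, a)) (by rw [h4.1]; exact k.2)
        rw [h4.1] at h2
        rw [if_pos h4, if_pos h4, mul_one,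
          cf_inr L d lam k c a h2.2 (hL.lt _ h2.1 c a h2.2)]
        split_ifs
        · ring
        · ring
      · rw [if_neg h4, if_neg h4, mul_zero, mul_zero]
    · intro b _ hb
      rw [map_mul, cc_vv hL hd hlam, if_neg (Ne.symm hb), zero_mul]
    · intro h0; exact absurd (Finset.mem_univ _) h0

/-- the values of the first words -/
theorem aeval_word (ρ : ℕ) (hρ : ρ ≤ d) (k : Fin n) :
    MvPolynomial.aeval (ze L N d hdn lam z) (word L ρ k)
      = ww L N d hdn lam (X z) (L ρ) k := by
  induction ρ using Nat.strong_induction_on generalizing k with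
  | _ ρ ih =>
    rcases hρL : L ρ with i | ⟨c, a⟩
    · rw [word_inl L ρ i hρL, MvPolynomial.aeval_X]
      rfl
    · have ha := hL.lt ρ (by omega) c a hρL
      rw [word_inr L ρ c a hρL ha, map_sum, ← vv_ze hL hd hlam z c a k]
      refine Finset.sum_congr rfl fun i _ => ?_
      rw [map_mul, ih a ha (by omega) i, MvPolynomial.aeval_X, vv, Matrix.of_apply,
        if_pos (by omega), ww, if_neg (by rw [ps_L hL (by omega)]; omega)]

theorem ww_lt (w : MvPowerSeries (KVar s r n) ℂ) (ρ : ℕ) (hρ : ρ < N) (hne : ρ ≠ d) (k : Fin n) :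
    ww L N d hdn lam w (L ρ) k = fr L N d lam (L ρ) k := by
  rw [ww, if_neg (by rw [ps_L hL hρ]; exact hne)]

end

end Pool.Agent.J6H66.KR
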