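import Pool.Agent.J6H66.KR.Order

set_option autoImplicit false
set_option linter.unusedSectionVars false
set_option linter.unusedVariables false

/-! # Words in generic matrices: the Jacobian determinant and the coordinates -/

namespace Pool.Agent.J6H66.KR

open MvPowerSeries Pool.Agent.W574.SM Pool.Agent.TH192.DT

variable {s r n : ℕ}

theorem jet_X (l t : KVar s r n) : jet l (X t : MvPowerSeries (KVar s r n) ℂ)
    = TrivSqZeroExt.inr (by classical exact if l = t then 1 else 0) := by
  classical
  rw [jet_apply, constantCoeff_X, TrivSqZeroExt.inl_zero, zero_add]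
  congr 1
  by_cases h : l = t
  · rw [if_pos h, h, pderiv_X_self, map_one]
  · rw [if_neg h, pderiv_X_of_ne (Ne.symm h), map_zero]

theorem jet_C (l : KVar s r n) (c : ℂ) : jet l (C c : MvPowerSeries (KVar s r n) ℂ)
    = TrivSqZeroExt.inl c := by
  rw [jet_apply, constantCoeff_C, pderiv_C, map_zero, TrivSqZeroExt.inr_zero, add_zero]

section

variable {L : ℕ → Row s r n} {N d : ℕ} (hL : IsWordList L N) (hd : d < N) {hdn : d ≤ n} {lam : ℂ}
  (hlam : lam ≠ 0) (z : KVar s r n)

include hL hd hlam

theorem pderiv_fr (t : KVar s r n) (row : Row s r n) (k : Fin n) :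
    pderiv ℂ t (fr L N d lam row k) = (by classical exact if t = (row, k) then 1 else 0) := by
  classical
  rw [fr, map_add, pderiv_C, zero_add]
  by_cases h : t = (row, k)
  · rw [if_pos h, h, pderiv_X_self]
  · rw [if_neg h, pderiv_X_of_ne (Ne.symm h)]

theorem pderiv_yy (t : KVar s r n) (k : Fin n) :
    pderiv ℂ t (yy L d k) = (by classical exact if t = (L d, k) ∧ (k : ℕ) ≠ d then 1 else 0) := by
  classical
  rw [yy, map_add, pderiv_C, zero_add]
  by_cases h1 : (k : ℕ) = d
  · rw [if_pos h1, map_zero, if_neg fun h => h.2 h1]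
  · rw [if_neg h1]
    by_cases h : t = (L d, k)
    · rw [if_pos ⟨h, h1⟩, h, pderiv_X_self]
    · rw [if_neg fun h2 => h h2.1, pderiv_X_of_ne (Ne.symm h)]

/-- the exceptional coordinates -/
def IsE (L : ℕ → Row s r n) (d : ℕ) (t : KVar s r n) : Prop := t.1 = L d ∧ d ≤ (t.2 : ℕ)

/-- the derivatives of the adapted rows in the direction of an exceptional coordinate -/
theorem pderiv_ww_exc (t : KVar s r n) (ht : IsE L d t) (htz : t ≠ z) (row : Row s r n)
    (k : Fin n) (hz : z = (L d, ⟨d, by have := hL.le; omega⟩)) :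
    pderiv ℂ t (ww L N d hdn lam (X z) row k)
      = X z * (by classical exact if t = (row, k) then 1 else 0) := by
  classical
  obtain ⟨t1, t2⟩ := t
  obtain ⟨h1, h2⟩ := ht
  change t1 = L d at h1
  change d ≤ (t2 : ℕ) at h2
  subst h1
  rw [ww]
  by_cases h3 : ps L N row = d
  · have h4 : row = L d := by
      have h5 := L_ps (L := L) (N := N) (row := row) (by have := hL.le; omega)
      rw [h3] at h5
      exact h5.2.symm
    subst h4
    rw [if_pos h3, map_add, map_sum]
    have h5 : ∑ a : Fin d, pderiv ℂ (L d, t2) (X (L d, Fin.castLE hdn a) *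
        fr L N d lam (L a) k) = 0 := by
      refine Finset.sum_eq_zero fun a _ => ?_
      rw [Derivation.leibniz, pderiv_fr hL hd hlam, pderiv_X_of_ne, smul_zero, add_zero, if_neg,
        smul_zero]
      · intro h6
        have h7 := hL.inj _ hd _ (a.2.trans hd) (Prod.mk.inj h6).1
        have := a.2
        omega
      · intro h6
        have h7 := (Prod.mk.inj h6).2
        rw [← h7] at h2
        have := a.2
        simp at h2
        omega
    rw [h5, zero_add]
    by_cases h6 : d ≤ (k : ℕ)
    · rw [if_pos h6, Derivation.leibniz, pderiv_X_of_ne (Ne.symm htz), smul_zero, add_zero,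
        pderiv_yy hL hd hlam, smul_eq_mul]
      congr 1
      by_cases h7 : t2 = k
      · subst h7
        have h9 : (t2 : ℕ) ≠ d := by
          intro h8
          apply htz
          rw [hz]
          exact Prod.ext rfl (Fin.ext h8)
        rw [if_pos rfl, if_pos ⟨rfl, h9⟩]
      · rw [if_neg fun h8 => h7 (Prod.mk.inj h8.1).2, if_neg fun h8 => h7 (Prod.mk.inj h8).2]
    · rw [if_neg h6, map_zero, if_neg, mul_zero]
      intro h7
      rw [(Prod.mk.inj h7).2] at h2
      exact h6 h2
  · have h4 : ¬ ((L d, t2) = (row, k)) := by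
      intro h4
      apply h3
      rw [← (Prod.mk.inj h4).1, ps_L hL hd]
    rw [if_neg h3, pderiv_fr hL hd hlam, if_neg h4, mul_zero]

/-- the derivatives of the frame -/
theorem pderiv_vv (t : KVar s r n) (a i : Fin n) :
    pderiv ℂ t (vv L N d lam a i)
      = (by classical exact if (a : ℕ) < d ∧ t = (L a, i) then 1 else 0) := by
  classical
  rw [vv, Matrix.of_apply]
  by_cases h1 : (a : ℕ) < d
  · rw [if_pos h1, pderiv_fr hL hd hlam]
    by_cases h2 : t = (L a, i)
    · rw [if_pos h2, if_pos ⟨h1, h2⟩]
    · rw [if_neg h2, if_neg fun h3 => h2 h3.2]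
  · rw [if_neg h1, pderiv_C, if_neg fun h3 => h1 h3.1]

/-- the constant coefficients of the derivatives of the adapted rows -/
theorem cc_pderiv_ww (t : KVar s r n) (row : Row s r n) (k : Fin n)
    (hz : z = (L d, ⟨d, by have := hL.le; omega⟩)) :
    constantCoeff (pderiv ℂ t (ww L N d hdn lam (X z) row k))
      = (by classical exact if t = (row, k) then
          (if ps L N row = d then (if (k : ℕ) < d then cf L d lam k else
            if (k : ℕ) = d then 1 else 0) else 1) else 0) := by
  classical
  rw [ww]
  by_cases h1 : ps L N row = d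
  · have h4 : row = L d := by
      have h5 := L_ps (L := L) (N := N) (row := row) (by have := hL.le; omega)
      rw [h1] at h5
      exact h5.2.symm
    subst h4
    rw [if_pos h1, if_pos h1, map_add, map_add, map_sum, map_sum]
    have h2 : ∀ a : Fin d, constantCoeff (pderiv ℂ t (X (L d, Fin.castLE hdn a) *
        fr L N d lam (L a) k)) = if t = (L d, Fin.castLE hdn a) ∧ (a : ℕ) = k
          then cf L d lam k else 0 := by
      intro a
      rw [Derivation.leibniz, map_add, smul_eq_mul, smul_eq_mul, map_mul, map_mul,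
        constantCoeff_X, zero_mul, zero_add, cc_fr hL hd hlam, ps_L hL (a.2.trans hd)]
      by_cases h3 : t = (L d, Fin.castLE hdn a)
      · rw [h3, pderiv_X_self, map_one, mul_one]
        by_cases h5 : (a : ℕ) = k
        · rw [if_pos h5, if_pos ⟨rfl, h5⟩]
        · rw [if_neg h5, if_neg fun h6 => h5 h6.2]
      · rw [pderiv_X_of_ne (Ne.symm h3), map_zero, mul_zero, if_neg fun h6 => h3 h6.1]
    simp only [h2]
    have h3 : constantCoeff (pderiv ℂ t (if d ≤ (k : ℕ) then X z * yy L d k else
        (0 : MvPowerSeries (KVar s r n) ℂ))) = if t = z ∧ (k : ℕ) = d then 1 else 0 := by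
      by_cases h5 : d ≤ (k : ℕ)
      · rw [if_pos h5, Derivation.leibniz, map_add, smul_eq_mul, smul_eq_mul, map_mul, map_mul,
          constantCoeff_X, zero_mul, zero_add]
        have h6 : constantCoeff (yy L d k) = if (k : ℕ) = d then 1 else 0 := by
          rw [yy, map_add, constantCoeff_C]
          split_ifs
          · rw [map_zero, add_zero]
          · rw [constantCoeff_X, add_zero]
        rw [h6]
        by_cases h7 : t = z
        · rw [h7, pderiv_X_self, map_one, mul_one]
          simp
        · rw [pderiv_X_of_ne (Ne.symm h7), map_zero, mul_zero, if_neg fun h8 => h7 h8.1]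
      · rw [if_neg h5, map_zero, map_zero, if_neg]
        rintro ⟨_, h6⟩
        omega
    rw [h3]
    by_cases h5 : (k : ℕ) < d
    · have h8 : ¬ (t = z ∧ (k : ℕ) = d) := by
        rintro ⟨_, h6⟩
        omega
      rw [Finset.sum_eq_single (⟨k, h5⟩ : Fin d), if_neg h8, add_zero, if_pos h5]
      · have h6 : Fin.castLE hdn (⟨k, h5⟩ : Fin d) = k := Fin.ext rfl
        rw [h6]
        simp
      · intro a _ ha
        rw [if_neg]
        rintro ⟨_, h6⟩
        exact ha (Fin.ext h6)
      · intro h0; exact absurd (Finset.mem_univ _) h0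
    · rw [Finset.sum_eq_zero, zero_add, if_neg h5]
      · by_cases h6 : (k : ℕ) = d
        · have h7 : z = (L d, k) := by
            rw [hz]
            exact Prod.ext rfl (Fin.ext h6.symm)
          rw [if_pos h6, h7]
          simp [h6]
        · rw [if_neg h6, if_neg fun h8 => h6 h8.2]
          simp
      · intro a _
        rw [if_neg]
        rintro ⟨_, h6⟩
        have := a.2
        omega
  · rw [if_neg h1, if_neg h1, pderiv_fr hL hd hlam]
    split_ifs
    · exact map_one _
    · exact map_zero _

end

section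

variable (L : ℕ → Row s r n) (N d : ℕ) (hdn : d ≤ n) (lam : ℂ) (z : KVar s r n)

/-- the frame, acting on the rows of all the matrices -/
noncomputable def vr (row row' : Row s r n) : MvPowerSeries (KVar s r n) ℂ :=
  match row, row' with
  | Sum.inl i, Sum.inl j => if i = j then 1 else 0
  | Sum.inl _, Sum.inr _ => 0
  | Sum.inr _, Sum.inl _ => 0
  | Sum.inr (c, a), Sum.inr (c', a') => if c = c' then vv L N d lam a a' else 0

/-- the correction term -/
noncomputable def corr (t : KVar s r n) (row : Row s r n) (k : Fin n) :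
    MvPowerSeries (KVar s r n) ℂ :=
  match row with
  | Sum.inl _ => 0
  | Sum.inr (c, a) => ∑ i, pderiv ℂ t (vv L N d lam a i) *
      ze L N d hdn lam z (Sum.inr (c, i), k)

end

section

variable {L : ℕ → Row s r n} {N d : ℕ} (hL : IsWordList L N) (hd : d < N) {hdn : d ≤ n} {lam : ℂ}
  (hlam : lam ≠ 0) (z : KVar s r n)

include hL hd hlam

theorem jac_mul (t : KVar s r n) (row : Row s r n) (k : Fin n) :
    ∑ row', pderiv ℂ t (ze L N d hdn lam z (row', k)) * vr L N d lam row row'
      = pderiv ℂ t (ww L N d hdn lam (X z) row k) - corr L N d hdn lam z t row k := by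
  classical
  rw [Fintype.sum_sum_type]
  rcases row with i | ⟨c, a⟩
  · have h1 : ∑ x : Fin r × Fin n, pderiv ℂ t (ze L N d hdn lam z (Sum.inr x, k)) *
        vr L N d lam (Sum.inl i) (Sum.inr x) = 0 :=
      Finset.sum_eq_zero fun x _ => mul_zero _
    rw [h1, add_zero, Finset.sum_eq_single i]
    · change _ * (if i = i then 1 else 0) = _ - 0
      rw [if_pos rfl, mul_one, sub_zero]
      rfl
    · intro j _ hj
      change _ * (if i = j then 1 else 0) = _
      rw [if_neg (Ne.symm hj), mul_zero]
    · intro h0; exact absurd (Finset.mem_univ _) h0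
  · have h1 : ∑ x : Fin s, pderiv ℂ t (ze L N d hdn lam z (Sum.inl x, k)) *
        vr L N d lam (Sum.inr (c, a)) (Sum.inl x) = 0 :=
      Finset.sum_eq_zero fun x _ => mul_zero _
    rw [h1, zero_add, Fintype.sum_prod_type, Finset.sum_eq_single c]
    · rw [← vv_ze hL hd hlam z c a k, map_sum]
      change _ = _ - ∑ i, pderiv ℂ t (vv L N d lam a i) * ze L N d hdn lam z (Sum.inr (c, i), k)
      rw [← Finset.sum_sub_distrib]
      refine Finset.sum_congr rfl fun i _ => ?_
      change _ * (if c = c then vv L N d lam a i else 0) = _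
      rw [if_pos rfl, Derivation.leibniz, smul_eq_mul, smul_eq_mul]
      ring
    · intro c' _ hc
      refine Finset.sum_eq_zero fun i _ => ?_
      change _ * (if c = c' then vv L N d lam a i else 0) = _
      rw [if_neg (Ne.symm hc), mul_zero]
    · intro h0; exact absurd (Finset.mem_univ _) h0

theorem corr_exc (t : KVar s r n) (ht : t.1 = L d) (row : Row s r n) (k : Fin n) :
    corr L N d hdn lam z t row k = 0 := by
  rcases row with i | ⟨c, a⟩
  · rfl
  · refine Finset.sum_eq_zero fun i _ => ?_
    rw [pderiv_vv hL hd hlam, if_neg, zero_mul]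
    rintro ⟨h1, h2⟩
    rw [h2] at ht
    have := hL.inj _ (h1.trans hd) _ hd ht
    omega

theorem corr_pos (t : KVar s r n) (row : Row s r n) (k : Fin n)
    (h : ps L N row ≤ ps L N t.1) : corr L N d hdn lam z t row k = 0 := by
  rcases row with i | ⟨c, a⟩
  · rfl
  · refine Finset.sum_eq_zero fun i _ => ?_
    rw [pderiv_vv hL hd hlam, if_neg, zero_mul]
    rintro ⟨h1, h2⟩
    rw [h2, ps_L hL (h1.trans hd)] at h
    have h3 := L_ps (L := L) (N := N) (row := Sum.inr (c, a)) (by have := a.2; omega)
    have h4 := hL.lt _ h3.1 c a h3.2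
    omega

theorem cc_vr (row row' : Row s r n) (h : row ≠ row') :
    constantCoeff (vr L N d lam row row') = 0 := by
  rcases row with i | ⟨c, a⟩ <;> rcases row' with j | ⟨c', a'⟩
  · change constantCoeff (if i = j then (1 : MvPowerSeries (KVar s r n) ℂ) else 0) = 0
    rw [if_neg fun h1 => h (by rw [h1]), map_zero]
  · exact map_zero _
  · exact map_zero _
  · change constantCoeff (if c = c' then vv L N d lam a a' else 0) = 0
    split_ifs with h1
    · rw [cc_vv hL hd hlam, if_neg fun h2 => h (by rw [h1, h2])]
    · exact map_zero _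

theorem cc_vr_self (row : Row s r n) : constantCoeff (vr L N d lam row row) ≠ 0 := by
  rcases row with i | ⟨c, a⟩
  · change constantCoeff (if i = i then (1 : MvPowerSeries (KVar s r n) ℂ) else 0) ≠ 0
    rw [if_pos rfl, map_one]
    exact one_ne_zero
  · change constantCoeff (if c = c then vv L N d lam a a else 0) ≠ 0
    rw [if_pos rfl, cc_vv hL hd hlam, if_pos rfl]
    split_ifs
    · exact cf_ne L d hlam _
    · exact one_ne_zero

theorem card_E : Nat.card {t : KVar s r n // IsE L d t} = n - d := by
  classical
  have h1 : Nat.card {t : KVar s r n // IsE L d t} = Nat.card (Fin (n - d)) := by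
    symm
    refine Nat.card_eq_of_bijective (fun q => ⟨(L d, ⟨d + q, by have := q.2; omega⟩),
      ⟨rfl, by simp⟩⟩) ⟨?_, ?_⟩
    · intro a a' hab
      have e1 : d + (a : ℕ) = d + a' :=
        congrArg (fun x : {t : KVar s r n // IsE L d t} => (x.1.2 : ℕ)) hab
      exact Fin.ext (by omega)
    · rintro ⟨⟨row, b⟩, h1, h2⟩
      change row = L d at h1
      change d ≤ (b : ℕ) at h2
      refine ⟨⟨b - d, by have := b.2; omega⟩, ?_⟩
      refine Subtype.ext (Prod.ext h1.symm (Fin.ext ?_))
      change d + ((b : ℕ) - d) = b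
      omega
  rw [h1, Nat.card_eq_fintype_card, Fintype.card_fin]

theorem jac (hz : z = (L d, ⟨d, by have := hL.le; omega⟩)) :
    ∃ U : MvPowerSeries (KVar s r n) ℂ, constantCoeff U ≠ 0 ∧
      (Matrix.of fun t i => pderiv ℂ t (ze L N d hdn lam z i)).det = X z ^ (n - d - 1) * U := by
  classical
  set Jm : Matrix (KVar s r n) (KVar s r n) (MvPowerSeries (KVar s r n) ℂ) :=
    Matrix.of fun t i => pderiv ℂ t (ze L N d hdn lam z i) with hJm
  set Nm : Matrix (KVar s r n) (KVar s r n) (MvPowerSeries (KVar s r n) ℂ) :=
    Matrix.of fun i' i => if i'.2 = i.2 then vr L N d lam i.1 i'.1 else 0 with hNm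
  set M' : Matrix (KVar s r n) (KVar s r n) (MvPowerSeries (KVar s r n) ℂ) :=
    Matrix.of fun t i => if IsE L d t ∧ t ≠ z then (if t = i then 1 else 0) else
      pderiv ℂ t (ww L N d hdn lam (X z) i.1 i.2) - corr L N d hdn lam z t i.1 i.2 with hM'
  have hzE : IsE L d z := by rw [hz]; exact ⟨rfl, le_rfl⟩
  have h1 : Jm * Nm = (Matrix.diagonal fun t => if IsE L d t ∧ t ≠ z then X z else 1) * M' := by
    ext1 t i
    obtain ⟨row, k⟩ := i
    rw [Matrix.mul_apply, Matrix.diagonal_mul, Fintype.sum_prod_type]
    have h2 : ∀ row', ∑ k', Jm t (row', k') * Nm (row', k') (row, k)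
        = pderiv ℂ t (ze L N d hdn lam z (row', k)) * vr L N d lam row row' := by
      intro row'
      rw [Finset.sum_eq_single k]
      · rw [hJm, hNm, Matrix.of_apply, Matrix.of_apply, if_pos rfl]
      · intro k' _ hk
        rw [hNm, Matrix.of_apply, if_neg hk, mul_zero]
      · intro h0; exact absurd (Finset.mem_univ _) h0
    simp only [h2]
    rw [jac_mul hL hd hlam, hM', Matrix.of_apply]
    by_cases h3 : IsE L d t ∧ t ≠ z
    · rw [if_pos h3, if_pos h3, corr_exc hL hd hlam z t h3.1.1, sub_zero,
        pderiv_ww_exc hL hd hlam z t h3.1 h3.2 row k hz]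
    · rw [if_neg h3, if_neg h3, one_mul]
  have h2 : constantCoeff Nm.det ≠ 0 := by
    rw [RingHom.map_det]
    have h3 : (constantCoeff : MvPowerSeries (KVar s r n) ℂ →+* ℂ).mapMatrix Nm
        = Matrix.diagonal fun i => constantCoeff (vr L N d lam i.1 i.1) := by
      ext1 i' i
      rw [RingHom.mapMatrix_apply, Matrix.map_apply, hNm, Matrix.of_apply, Matrix.diagonal_apply]
      by_cases h4 : i' = i
      · rw [if_pos h4, h4, if_pos rfl]
      · rw [if_neg h4]
        split_ifs with h5
        · refine cc_vr hL hd hlam _ _ fun h6 => h4 (Prod.ext h6.symm h5)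
        · exact map_zero _
    rw [h3, Matrix.det_diagonal]
    exact Finset.prod_ne_zero_iff.2 fun i _ => cc_vr_self hL hd hlam _
  have h3 : constantCoeff M'.det ≠ 0 := by
    rw [RingHom.map_det, det_of_rank _ (fun t => ps L N t.1)]
    · refine Finset.prod_ne_zero_iff.2 fun t _ => ?_
      rw [RingHom.mapMatrix_apply, Matrix.map_apply, hM', Matrix.of_apply]
      by_cases h4 : IsE L d t ∧ t ≠ z
      · rw [if_pos h4, if_pos rfl, map_one]
        exact one_ne_zero
      · rw [if_neg h4, map_sub, corr_pos hL hd hlam z t t.1 t.2 le_rfl, map_zero, sub_zero,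
          cc_pderiv_ww hL hd hlam z t t.1 t.2 hz, if_pos rfl]
        by_cases h5 : ps L N t.1 = d
        · rw [if_pos h5]
          by_cases h6 : (t.2 : ℕ) < d
          · rw [if_pos h6]
            exact cf_ne L d hlam _
          · rw [if_neg h6]
            have h7 : t.1 = L d := by
              have h8 := L_ps (L := L) (N := N) (row := t.1) (by have := hL.le; omega)
              rw [h5] at h8
              exact h8.2.symm
            have h8 : t = z := by
              by_contra h9
              exact h4 ⟨⟨h7, not_lt.1 h6⟩, h9⟩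
            have h9 : (t.2 : ℕ) = d := by rw [h8, hz]
            rw [if_pos h9]
            exact one_ne_zero
        · rw [if_neg h5]
          exact one_ne_zero
    · intro t i hti hb
      rw [RingHom.mapMatrix_apply, Matrix.map_apply, hM', Matrix.of_apply]
      by_cases h4 : IsE L d t ∧ t ≠ z
      · rw [if_pos h4, if_neg hti, map_zero]
      · rw [if_neg h4, map_sub, corr_pos hL hd hlam z t i.1 i.2 hb, map_zero, sub_zero,
          cc_pderiv_ww hL hd hlam z t i.1 i.2 hz, if_neg hti]
  have h4 : IsUnit Nm.det := by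
    rw [MvPowerSeries.isUnit_iff_constantCoeff]
    exact isUnit_iff_ne_zero.2 h2
  obtain ⟨V, hV⟩ := h4.exists_right_inv
  refine ⟨M'.det * V, ?_, ?_⟩
  · rw [map_mul]
    refine mul_ne_zero h3 fun h5 => ?_
    have h6 := congrArg constantCoeff hV
    rw [map_mul, h5, mul_zero, map_one] at h6
    exact zero_ne_one h6
  · have h5 := congrArg Matrix.det h1
    rw [Matrix.det_mul, Matrix.det_mul, Matrix.det_diagonal, Finset.prod_ite,
      Finset.prod_const_one, mul_one, Finset.prod_const] at h5
    have h6 : (Finset.univ.filter fun t : KVar s r n => IsE L d t ∧ t ≠ z).card = n - d - 1 := by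
      have h7 : (Finset.univ.filter fun t : KVar s r n => IsE L d t ∧ t ≠ z)
          = (Finset.univ.filter fun t => IsE L d t).erase z := by
        ext t
        simp only [Finset.mem_filter, Finset.mem_erase, Finset.mem_univ, true_and]
        exact and_comm
      rw [h7, Finset.card_erase_of_mem (Finset.mem_filter.2 ⟨Finset.mem_univ _, hzE⟩),
        ← Fintype.card_subtype, ← Nat.card_eq_fintype_card, card_E hL hd hlam]
    rw [h6] at h5
    calc Jm.det = Jm.det * (Nm.det * V) := by rw [hV, mul_one]
      _ = (Jm.det * Nm.det) * V := by ring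
      _ = X z ^ (n - d - 1) * (M'.det * V) := by rw [h5]; ring

end

end Pool.Agent.J6H66.KR
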