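import Pool.Agent.J6H66.KR.Roots
import Pool.Agent.J6H66.FM.Sys

set_option autoImplicit false
set_option linter.unusedSectionVars false
set_option linter.unusedVariables false

/-! # Words in generic matrices: the forms over the products of the ideals of maximal minors -/

namespace Pool.Agent.J6H66.KR

open Pool.Agent.W574.SM Pool.Agent.TH192.DT Pool.Agent.W574.LM Pool.Agent.H628R4.TP
  Pool.Agent.W574.HS Pool.Agent.J6H7.BD Pool.Agent.J6H66.FM

/-- The conditions: `L` is a list of `N` words, and the numbers `q t` are `1, …, N` (each of them may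
occur several times). -/
structure IsKrylovType {s r n : ℕ} (L : ℕ → Row s r n) (N : ℕ) {T : ℕ} (q : Fin T → ℕ) :
    Prop where
  list : IsWordList L N
  pos : ∀ t, 0 < q t
  le : ∀ t, q t ≤ N
  all : ∀ j, 0 < j → j ≤ N → ∃ t, q t = j

variable {s r n : ℕ} {L : ℕ → Row s r n} {N T : ℕ} {q : Fin T → ℕ}

theorem wordMinor_ne (hL : IsWordList L N) {k : ℕ} (hk0 : 0 < k) (hk : k ≤ N) :
    ∃ J, wordMinor L k J ≠ 0 := by
  have hn := hL.le
  have h1 := hasOrd (hdn := Nat.zero_le n) hL (by omega : 0 < N) (one_ne_zero (α := ℂ))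
    (L 0, ⟨0, by omega⟩) hk
  obtain ⟨_, F, hF, U, hU, hFU⟩ := h1
  by_contra hcon
  push Not at hcon
  have h2 : Set.range (wordMinor L k) ⊆ {0} := by
    rintro _ ⟨j, rfl⟩
    exact hcon j
  have h3 : F = 0 := by
    have h4 := Submodule.span_mono h2 hF
    simpa using h4
  rw [h3, map_zero] at hFU
  have h5 : U = 0 := by
    by_contra hU0
    exact mul_ne_zero (pow_ne_zero _ (X_ne0 _)) hU0 hFU.symm
  rw [h5, map_zero] at hU
  exact hU rfl

/-- **The system of the ideals of maximal minors of the words.** -/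
theorem sysK (hq : IsKrylovType L N q) :
    FSys (σ := KVar s r n) (κ := fun t => (Fin (q t) ↪o Fin n)) (fun t => wordMinor L (q t))
      (fun d : Fin N => n - (d : ℕ)) (fun d t => descCount L d (q t)) where
  ne := fun t => wordMinor_ne hq.list (hq.pos t) (hq.le t)
  pos := fun d => by
    have h1 := d.2
    have h2 := hq.list.le
    omega
  roots := fun {τ} _ _ π hπ b H hH hb d l hl => by
    obtain ⟨t, ht⟩ := hq.all (d + 1) (Nat.succ_pos _) d.2
    obtain ⟨x0, rfl⟩ := hπ t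
    exact roots_d hq.list d.2 (fun x => q (π x)) (fun x => hq.le _) x0 ht b H hb hH l hl

/-- The polynomial `∏ b, (∑_K y_{b,K} ∏_{β t = b} M_{K t}(v, X)) ^ a b` in the variables `y_{b,K}` and
the entries of the `v_i` and `X_c`: for `b < B`, `K` runs over the choices of one maximal minor
`M_{K t}` of the matrix with the rows `w_0, …, w_(q t - 1)` for each `t < T` with `β t = b`. -/
noncomputable def wordForm (L : ℕ → Row s r n) {T B : ℕ} (q : Fin T → ℕ) (β : Fin T → Fin B)
    (a : Fin B → ℕ) :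
    MvPolynomial ((Σ b, ((t : {t // β t = b}) → (Fin (q t.1) ↪o Fin n))) ⊕ KVar s r n) ℂ :=
  ∏ b, (∑ K : (t : {t // β t = b}) → (Fin (q t.1) ↪o Fin n), MvPolynomial.X (Sum.inl ⟨b, K⟩) *
    MvPolynomial.rename Sum.inr (∏ t, wordMinor L (q t.1) (K t))) ^ a b

theorem wordForm_eq {B : ℕ} (β : Fin T → Fin B) (a : Fin B → ℕ) :
    wordForm L q β a = powProd a (blkF (fun t => wordMinor L (q t)) β) := rfl

/-- The multiplicities of `∏ b, F_b ^ a b`: `N_j = ∑ t, a (β t) D(j, q t)` along `E_j`, `j = d + 1`,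
with `D(j, q)` the number of the descendants of `w_d` among `w_0, …, w_(q-1)`, and `a b` along the
strict transform of `F_b = 0`. -/
noncomputable def wordMul (L : ℕ → Row s r n) (N : ℕ) {T B : ℕ} (q : Fin T → ℕ)
    (β : Fin T → Fin B) (a : Fin B → ℕ) : Fin N ⊕ Fin B → ℕ :=
  Sum.elim (fun d => ∑ t, a (β t) * descCount L d (q t)) a

/-- The numbers `ν`: `n - j + 1 = n - d` for `E_j`, `j = d + 1`, and `1` for the strict transforms. -/
def wordNu (n N B : ℕ) : Fin N ⊕ Fin B → ℕ := Sum.elim (fun d => n - (d : ℕ)) fun _ => 1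

/-- **The motivic form.** -/
theorem word_mot {B : ℕ} (β : Fin T → Fin B) (a : Fin B → ℕ) (hq : IsKrylovType L N q)
    (ha : ∀ t, 0 < a (β t)) : ∃ P : Finset (ℤ × ℤ), (∀ q' ∈ P, q'.1 < 0 ∧ 0 < q'.2 ∧
      (∀ b : Polynomial ℂ, IsBFunction (wordForm L q β a) b →
        b.eval ((q'.1 : ℂ) / q'.2) = 0) ∧
      ∀ b : Polynomial ℂ, IsLocalBFunction (wordForm L q β a) b →
        b.eval ((q'.1 : ℂ) / q'.2) = 0) ∧
    ∀ (R' : Type) [CommRing R'] (u : R'ˣ) (c : Finset {i // 0 < wordMul L N q β a i} → R'),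
      dlZ u (wordNu n N B) (wordMul L N q β a) c ∈ ratU u (P : Set (ℤ × ℤ)) :=
  motX (sysK hq) β a ha

/-- **The topological form.** -/
theorem word_top {B : ℕ} (β : Fin T → Fin B) (a : Fin B → ℕ) (hq : IsKrylovType L N q)
    (ha : ∀ t, 0 < a (β t)) (χ : Finset (Fin N ⊕ Fin B) → ℤ) (s₀ : ℂ)
    (hs : (topZ (wordNu n N B) (wordMul L N q β a) χ).denom.eval s₀ = 0) :
    (∀ b : Polynomial ℂ, IsBFunction (wordForm L q β a) b → b.eval s₀ = 0) ∧
      ∀ b : Polynomial ℂ, IsLocalBFunction (wordForm L q β a) b → b.eval s₀ = 0 :=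
  topX (sysK hq) β a ha χ s₀ hs

end Pool.Agent.J6H66.KR
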