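import Pool.Agent.J6H66.KR.Chart

set_option autoImplicit false
set_option linter.unusedSectionVars false
set_option linter.unusedVariables false

/-! # Words in generic matrices: the orders of the maximal minors -/

namespace Pool.Agent.J6H66.KR

open MvPowerSeries Pool.Agent.W574.SM Pool.Agent.TH192.DT

/-- a change of the rows by a unitriangular matrix -/
theorem det_span {R : Type} [CommRing R] {n : ℕ} (u B : ℕ → Fin n → R) (q : ℕ)
    (h : ∀ ρ < q, u ρ - B ρ ∈ Submodule.span R (B '' {b | b < ρ})) (c : Fin q → Fin n) :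
    (Matrix.of fun i j : Fin q => u i (c j)).det = (Matrix.of fun i j : Fin q => B i (c j)).det := by
  classical
  have h1 : ∀ i : Fin q, ∃ e : ℕ → R, ∑ b ∈ Finset.range i, e b • B b = u i - B i := by
    intro i
    have h2 := h i i.2
    have h3 : {b | b < (i : ℕ)} = ((Finset.range i : Finset ℕ) : Set ℕ) := by
      ext b
      simp
    rw [h3] at h2
    obtain ⟨e, he⟩ := (Submodule.mem_span_image_finset_iff_exists_fun R).1 h2
    refine ⟨fun b => if hb : b ∈ Finset.range i then e ⟨b, hb⟩ else 0, ?_⟩
    rw [← he, ← Finset.sum_coe_sort]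
    refine Finset.sum_congr rfl fun b _ => ?_
    simp only [dif_pos b.2]
  choose e he using h1
  set Lm : Matrix (Fin q) (Fin q) R := Matrix.of fun i j =>
    if i = j then 1 else if (j : ℕ) < i then e i j else 0 with hLm
  have h2 : (Matrix.of fun i j : Fin q => u i (c j))
      = Lm * (Matrix.of fun i j : Fin q => B i (c j)) := by
    ext1 i j
    rw [Matrix.mul_apply, Matrix.of_apply]
    have h3 : u i = B i + ∑ b ∈ Finset.range i, e i b • B b := by
      rw [he i]; abel
    rw [h3, Pi.add_apply, Finset.sum_apply]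
    have h4 : ∀ x : Fin q, Lm i x * (Matrix.of fun i j : Fin q => B i (c j)) x j
        = (if i = x then B x (c j) else 0) + (if (x : ℕ) < i then e i x * B x (c j) else 0) := by
      intro x
      rw [hLm, Matrix.of_apply, Matrix.of_apply]
      by_cases h5 : i = x
      · subst h5; simp
      · rw [if_neg h5, if_neg h5, zero_add]
        split_ifs
        · rfl
        · rw [zero_mul]
    simp only [h4]
    rw [Finset.sum_add_distrib, Finset.sum_ite_eq, if_pos (Finset.mem_univ i)]
    congr 1
    rw [Finset.sum_ite, Finset.sum_const_zero, add_zero]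
    symm
    refine Finset.sum_bij (fun x _ => (x : ℕ)) ?_ ?_ ?_ ?_
    · intro x hx
      exact Finset.mem_range.2 (Finset.mem_filter.1 hx).2
    · intro x _ y _ hxy
      exact Fin.ext hxy
    · intro b hb
      have hb' := Finset.mem_range.1 hb
      exact ⟨⟨b, hb'.trans i.2⟩, Finset.mem_filter.2 ⟨Finset.mem_univ _, hb'⟩, rfl⟩
    · intro x _
      rfl
  have h3 : Lm.det = 1 := by
    rw [det_of_rank Lm (fun i => q - (i : ℕ))]
    · refine Finset.prod_eq_one fun i _ => ?_
      rw [hLm, Matrix.of_apply, if_pos rfl]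
    · intro t i hti hb
      rw [hLm, Matrix.of_apply, if_neg hti, if_neg]
      have h4 := t.2
      have h5 := i.2
      have h6 : (t : ℕ) ≠ i := fun h => hti (Fin.ext h)
      omega
  rw [h2, Matrix.det_mul, h3, one_mul]

variable {s r n : ℕ}

section

variable (L : ℕ → Row s r n) (N d : ℕ) (hdn : d ≤ n) (lam : ℂ) (z : KVar s r n)

/-- the adapted basis -/
noncomputable def bb (ρ : ℕ) (k : Fin n) : MvPowerSeries (KVar s r n) ℂ :=
  if ρ < d then fr L N d lam (L ρ) k else
    if ρ = d then (if d ≤ (k : ℕ) then yy L d k else 0) else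
      match L ρ with
      | Sum.inl i => fr L N d lam (Sum.inl i) k
      | Sum.inr (c, a) => if _h : (a : ℕ) < ρ then
          ∑ i, bb a i * ze L N d hdn lam z (Sum.inr (c, i), k) else 0
termination_by ρ

open Classical in
/-- the equation of the divisor for the descendants -/
noncomputable def ee (ρ : ℕ) : MvPowerSeries (KVar s r n) ℂ :=
  if IsDesc L d ρ then X z else 1

/-- the basis with the equation of the divisor -/
noncomputable def ub (ρ : ℕ) : Fin n → MvPowerSeries (KVar s r n) ℂ :=
  fun k => ee L d z ρ * bb L N d hdn lam z ρ k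

/-- the matrix `X_c` in the chart -/
noncomputable def xm (c : Fin r) : Matrix (Fin n) (Fin n) (MvPowerSeries (KVar s r n) ℂ) :=
  Matrix.of fun i k => ze L N d hdn lam z (Sum.inr (c, i), k)

end

section

variable {L : ℕ → Row s r n} {N d : ℕ} (hL : IsWordList L N) (hd : d < N) {hdn : d ≤ n} {lam : ℂ}
  (hlam : lam ≠ 0) (z : KVar s r n)

include hL hd hlam

theorem ub_lt (ρ : ℕ) (hρ : ρ < d) (k : Fin n) :
    ub L N d hdn lam z ρ k = fr L N d lam (L ρ) k := by
  rw [ub, ee, if_neg (fun h => absurd (isDesc_le L d ρ h) (not_le.2 hρ)), one_mul, bb,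
    if_pos hρ]

theorem ub_d (k : Fin n) : ub L N d hdn lam z d k
    = X z * if d ≤ (k : ℕ) then yy L d k else 0 := by
  rw [ub, ee, if_pos (isDesc_self L d), bb, if_neg (lt_irrefl d), if_pos rfl]

theorem ww_d (k : Fin n) : ww L N d hdn lam (X z) (L d) k
    = ((∑ a : Fin d, (X (L d, Fin.castLE hdn a) : MvPowerSeries (KVar s r n) ℂ) •
      ub L N d hdn lam z a) + ub L N d hdn lam z d) k := by
  rw [Pi.add_apply, Finset.sum_apply, ub_d hL hd hlam, ww, if_pos (ps_L hL hd)]
  congr 1
  · refine Finset.sum_congr rfl fun a _ => ?_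
    rw [Pi.smul_apply, smul_eq_mul, ub_lt hL hd hlam z a a.2]
  · split_ifs
    · rfl
    · rw [mul_zero]

theorem ub_mul_lt (c : Fin r) (b : Fin n) (hb : (b : ℕ) < d) (k : Fin n) :
    Matrix.vecMul (ub L N d hdn lam z b) (xm L N d hdn lam z c) k
      = ww L N d hdn lam (X z) (Sum.inr (c, b)) k := by
  rw [← vv_ze hL hd hlam z c b k]
  change ∑ i, ub L N d hdn lam z b i * ze L N d hdn lam z (Sum.inr (c, i), k) = _
  refine Finset.sum_congr rfl fun i _ => ?_
  rw [ub_lt hL hd hlam z b hb, vv, Matrix.of_apply, if_pos hb]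

theorem ub_mul_gt (ρ : ℕ) (hρ : d < ρ) (hρN : ρ < N) (c : Fin r) (a : Fin n)
    (h : L ρ = Sum.inr (c, a)) :
    ub L N d hdn lam z ρ = Matrix.vecMul (ub L N d hdn lam z a) (xm L N d hdn lam z c) := by
  have ha := hL.lt ρ hρN c a h
  have h1 : ee L d z ρ = ee L d z a := by
    rw [ee, ee]
    have h2 : IsDesc L d ρ ↔ IsDesc L d a := by
      rw [isDesc_inr L d ρ c a h ha]
      constructor
      · rintro (h3 | h3)
        · omega
        · exact h3
      · exact Or.inr
    by_cases h3 : IsDesc L d a
    · rw [if_pos h3, if_pos (h2.2 h3)]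
    · rw [if_neg h3, if_neg fun h4 => h3 (h2.1 h4)]
  funext k
  have h3 : bb L N d hdn lam z ρ k
      = ∑ i, bb L N d hdn lam z a i * ze L N d hdn lam z (Sum.inr (c, i), k) := by
    rw [bb, if_neg (by omega), if_neg (by omega), h]
    exact dif_pos ha
  change ee L d z ρ * bb L N d hdn lam z ρ k = ∑ i, (ee L d z a * bb L N d hdn lam z a i) *
    ze L N d hdn lam z (Sum.inr (c, i), k)
  rw [h1, h3, Finset.mul_sum]
  exact Finset.sum_congr rfl fun i _ => (mul_assoc _ _ _).symm

theorem span_step (ρ : ℕ) (hρ : d < ρ) (hρN : ρ < N) (c : Fin r) (a : Fin n)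
    (h : L ρ = Sum.inr (c, a)) (b : ℕ) (hb : b < a) :
    Matrix.vecMul (ub L N d hdn lam z b) (xm L N d hdn lam z c) ∈
      Submodule.span (MvPowerSeries (KVar s r n) ℂ) (ub L N d hdn lam z '' {b | b < ρ}) := by
  obtain ⟨ρ', hρ', hL'⟩ := hL.before ρ hρN c a h ⟨b, hb.trans a.2⟩ hb
  have hbρ : b < ρ' := hL.lt ρ' (hρ'.trans hρN) c _ hL'
  rcases lt_trichotomy ρ' d with h1 | h1 | h1
  · refine Submodule.subset_span ⟨ρ', hρ', ?_⟩
    funext k
    rw [ub_lt hL hd hlam z ρ' h1]
    have h2 := ub_mul_lt (hdn := hdn) hL hd hlam z c ⟨b, hb.trans a.2⟩ (hbρ.trans h1) k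
    rw [← hL', ww_lt hL hd hlam _ ρ' (hρ'.trans hρN) (by omega)] at h2
    exact h2.symm
  · subst h1
    have h2 : Matrix.vecMul (ub L N ρ' hdn lam z b) (xm L N ρ' hdn lam z c)
        = (∑ a : Fin ρ', (X (L ρ', Fin.castLE hdn a) : MvPowerSeries (KVar s r n) ℂ) •
          ub L N ρ' hdn lam z a) + ub L N ρ' hdn lam z ρ' := by
      funext k
      rw [← ww_d hL hd hlam z k, hL']
      exact ub_mul_lt (hdn := hdn) hL hd hlam z c ⟨b, hb.trans a.2⟩ hbρ k
    rw [h2]
    refine Submodule.add_mem _ (Submodule.sum_mem _ fun a' _ => Submodule.smul_mem _ _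
      (Submodule.subset_span ⟨a', lt_trans a'.2 hρ, rfl⟩)) (Submodule.subset_span ⟨ρ', hρ, rfl⟩)
  · refine Submodule.subset_span ⟨ρ', hρ', ?_⟩
    exact ub_mul_gt hL hd hlam z ρ' h1 (hρ'.trans hρN) c ⟨b, hb.trans a.2⟩ hL'

theorem word_span (ρ : ℕ) (hρN : ρ < N) :
    (fun k => MvPolynomial.aeval (ze L N d hdn lam z) (word L ρ k)) - ub L N d hdn lam z ρ ∈
      Submodule.span (MvPowerSeries (KVar s r n) ℂ) (ub L N d hdn lam z '' {b | b < ρ}) := by
  induction ρ using Nat.strong_induction_on with
  | _ ρ ih =>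
    rcases lt_trichotomy ρ d with h1 | h1 | h1
    · have h2 : (fun k => MvPolynomial.aeval (ze L N d hdn lam z) (word L ρ k))
          - ub L N d hdn lam z ρ = 0 := by
        funext k
        rw [Pi.sub_apply, aeval_word hL hd hlam z ρ h1.le, ub_lt hL hd hlam z ρ h1,
          ww_lt hL hd hlam _ ρ hρN (by omega), sub_self]
        rfl
      rw [h2]
      exact Submodule.zero_mem _
    · subst h1
      have h2 : (fun k => MvPolynomial.aeval (ze L N ρ hdn lam z) (word L ρ k))
          - ub L N ρ hdn lam z ρ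
          = ∑ a : Fin ρ, (X (L ρ, Fin.castLE hdn a) : MvPowerSeries (KVar s r n) ℂ) •
            ub L N ρ hdn lam z a := by
        funext k
        rw [Pi.sub_apply, aeval_word hL hd hlam z ρ le_rfl, ww_d hL hd hlam, Pi.add_apply,
          add_sub_cancel_right]
      rw [h2]
      exact Submodule.sum_mem _ fun a' _ => Submodule.smul_mem _ _
        (Submodule.subset_span ⟨a', a'.2, rfl⟩)
    · rcases hρL : L ρ with i | ⟨c, a⟩
      · have h2 : (fun k => MvPolynomial.aeval (ze L N d hdn lam z) (word L ρ k))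
            - ub L N d hdn lam z ρ = 0 := by
          funext k
          have h3 : ub L N d hdn lam z ρ k = fr L N d lam (Sum.inl i) k := by
            rw [ub, ee, if_neg (by rw [isDesc_inl L d ρ i hρL]; omega), one_mul, bb,
              if_neg (by omega), if_neg (by omega), hρL]
          rw [Pi.sub_apply, h3, word_inl L ρ i hρL, MvPolynomial.aeval_X]
          change ww L N d hdn lam (X z) (Sum.inl i) k - _ = _
          rw [← hρL, ww_lt hL hd hlam _ ρ hρN (by omega), sub_self]
          rfl
        rw [h2]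
        exact Submodule.zero_mem _
      · have ha := hL.lt ρ hρN c a hρL
        have h2 : (fun k => MvPolynomial.aeval (ze L N d hdn lam z) (word L ρ k))
            - ub L N d hdn lam z ρ
            = (xm L N d hdn lam z c).vecMulLinear
              ((fun k => MvPolynomial.aeval (ze L N d hdn lam z) (word L a k))
                - ub L N d hdn lam z a) := by
          rw [map_sub, Matrix.vecMulLinear_apply, Matrix.vecMulLinear_apply,
            ub_mul_gt hL hd hlam z ρ h1 hρN c a hρL]
          congr 1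
          funext k
          rw [word_inr L ρ c a hρL ha, map_sum]
          change _ = ∑ i, MvPolynomial.aeval (ze L N d hdn lam z) (word L a i) *
            ze L N d hdn lam z (Sum.inr (c, i), k)
          refine Finset.sum_congr rfl fun i _ => ?_
          rw [map_mul, MvPolynomial.aeval_X]
        rw [h2]
        have h3 := Submodule.mem_map_of_mem (f := (xm L N d hdn lam z c).vecMulLinear)
          (ih a ha (ha.trans hρN))
        refine (Submodule.map_span_le _ _ _).2 ?_ h3
        rintro _ ⟨b, hb, rfl⟩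
        rw [Matrix.vecMulLinear_apply]
        exact span_step hL hd hlam z ρ h1 hρN c a hρL b hb

/-- the coefficients of the adapted basis at the base point -/
theorem cc_bb (ρ : ℕ) (hρN : ρ < N) : ∃ κ : ℂ, κ ≠ 0 ∧ ∀ k : Fin n,
    constantCoeff (bb L N d hdn lam z ρ k) = if (k : ℕ) = ρ then κ else 0 := by
  induction ρ using Nat.strong_induction_on with
  | _ ρ ih =>
    rcases lt_trichotomy ρ d with h1 | h1 | h1
    · refine ⟨cf L d lam ρ, cf_ne L d hlam ρ, fun k => ?_⟩
      rw [bb, if_pos h1, cc_fr hL hd hlam, ps_L hL hρN]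
      by_cases h2 : (k : ℕ) = ρ
      · rw [if_pos h2, if_pos h2.symm, h2]
      · rw [if_neg h2, if_neg (Ne.symm h2)]
    · subst h1
      refine ⟨1, one_ne_zero, fun k => ?_⟩
      rw [bb, if_neg (lt_irrefl ρ), if_pos rfl]
      by_cases h2 : (k : ℕ) = ρ
      · rw [if_pos h2, if_pos h2.ge, yy, if_pos h2, if_pos h2, add_zero, map_one, map_one]
      · rw [if_neg h2]
        split_ifs
        · rw [yy, if_neg h2, if_neg h2, map_zero, zero_add, constantCoeff_X]
        · exact map_zero _
    · rcases hρL : L ρ with i | ⟨c, a⟩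
      · refine ⟨cf L d lam ρ, cf_ne L d hlam ρ, fun k => ?_⟩
        rw [bb, if_neg (by omega), if_neg (by omega), hρL]
        change constantCoeff (fr L N d lam (Sum.inl i) k) = _
        rw [cc_fr hL hd hlam, ← hρL, ps_L hL hρN]
        by_cases h2 : (k : ℕ) = ρ
        · rw [if_pos h2, if_pos h2.symm, h2]
        · rw [if_neg h2, if_neg (Ne.symm h2)]
      · have ha := hL.lt ρ hρN c a hρL
        obtain ⟨κ, hκ, hκ2⟩ := ih a ha (ha.trans hρN)
        refine ⟨κ * lam, mul_ne_zero hκ hlam, fun k => ?_⟩
        have h3 : bb L N d hdn lam z ρ k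
            = ∑ i, bb L N d hdn lam z a i * ze L N d hdn lam z (Sum.inr (c, i), k) := by
          rw [bb, if_neg (by omega), if_neg (by omega), hρL]
          exact dif_pos ha
        rw [h3, map_sum, Finset.sum_eq_single a]
        · rw [map_mul, hκ2, if_pos rfl, cc_ze hL hd hlam, ← hρL, ps_L hL hρN]
          by_cases h4 : (k : ℕ) = ρ
          · rw [if_pos h4, if_pos ⟨h4.symm, by change (k : ℕ) ≠ d; omega⟩, mul_one]
          · rw [if_neg h4, if_neg fun h5 => h4 h5.1.symm, mul_zero, mul_zero]
        · intro b _ hb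
          rw [map_mul, hκ2, if_neg fun h4 => hb (Fin.ext h4), zero_mul]
        · intro h0; exact absurd (Finset.mem_univ _) h0

open Classical in
/-- the value of a minor of the first `q` words -/
theorem aeval_minor {q : ℕ} (hq : q ≤ N) (c : Fin q → Fin n) :
    MvPolynomial.aeval (ze L N d hdn lam z) (Matrix.of fun i j : Fin q => word L i (c j)).det
      = X z ^ (Finset.univ.filter fun i : Fin q => IsDesc L d i).card *
        (Matrix.of fun i j : Fin q => bb L N d hdn lam z i (c j)).det := by
  rw [AlgHom.map_det]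
  have h1 : (MvPolynomial.aeval (ze L N d hdn lam z)).mapMatrix
      (Matrix.of fun i j : Fin q => word L i (c j))
      = Matrix.of fun i j : Fin q =>
        (fun ρ k => MvPolynomial.aeval (ze L N d hdn lam z) (word L ρ k)) (i : ℕ) (c j) := by
    ext1 i j
    rfl
  rw [h1, det_span (fun ρ k => MvPolynomial.aeval (ze L N d hdn lam z) (word L ρ k))
    (ub L N d hdn lam z) q (fun ρ hρ => word_span hL hd hlam z ρ (by omega)) c]
  have h2 : (Matrix.of fun i j : Fin q => ub L N d hdn lam z i (c j))
      = Matrix.diagonal (fun i : Fin q => ee L d z i) *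
        (Matrix.of fun i j : Fin q => bb L N d hdn lam z i (c j)) := by
    ext1 i j
    rw [Matrix.diagonal_mul, Matrix.of_apply, Matrix.of_apply]
    rfl
  rw [h2, Matrix.det_mul, Matrix.det_diagonal]
  congr 1
  simp only [ee]
  rw [Finset.prod_ite, Finset.prod_const_one, mul_one, Finset.prod_const]

/-- the leading minors -/
theorem cc_lead {q : ℕ} (hq : q ≤ N) (hqn : q ≤ n) :
    constantCoeff (Matrix.of fun i j : Fin q => bb L N d hdn lam z i (Fin.castLE hqn j)).det
      ≠ 0 := by
  classical
  choose κ hκ hκ2 using fun i : Fin q => cc_bb (hdn := hdn) hL hd hlam z i (by have := i.2; omega)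
  have h1 : (constantCoeff : MvPowerSeries (KVar s r n) ℂ →+* ℂ).mapMatrix
      (Matrix.of fun i j : Fin q => bb L N d hdn lam z i (Fin.castLE hqn j))
      = Matrix.diagonal κ := by
    ext1 i j
    rw [RingHom.mapMatrix_apply, Matrix.map_apply, Matrix.of_apply, hκ2, Matrix.diagonal_apply]
    by_cases h2 : i = j
    · subst h2; simp
    · rw [if_neg h2, if_neg]
      intro h3
      exact h2 (Fin.ext h3.symm)
  rw [RingHom.map_det, h1, Matrix.det_diagonal]
  exact Finset.prod_ne_zero_iff.2 fun i _ => hκ i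

end

end Pool.Agent.J6H66.KR
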