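import Pool.Agent.J6H66.KR.Jac

set_option autoImplicit false
set_option linter.unusedSectionVars false
set_option linter.unusedVariables false

/-! # Words in generic matrices: the roots of the Bernstein-Sato polynomials -/

namespace Pool.Agent.J6H66.KR

open MvPowerSeries Pool.Agent.W574.SM Pool.Agent.TH192.DT

variable {s r n : ℕ}

/-- The generators of the ideal `P_q`: the maximal minors of the matrix with the rows `w_0, …, w_(q-1)`. -/
noncomputable def wordMinor (L : ℕ → Row s r n) (q : ℕ) (J : Fin q ↪o Fin n) :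
    MvPolynomial (KVar s r n) ℂ :=
  (Matrix.of fun i j : Fin q => word L i (J j)).det

open Classical in
/-- The number of the descendants of `w_d` among `w_0, …, w_(q-1)`. -/
noncomputable def descCount (L : ℕ → Row s r n) (d q : ℕ) : ℕ :=
  (Finset.univ.filter fun i : Fin q => IsDesc L d i).card

theorem isCoord_X (z t : KVar s r n) (ht : t ≠ z) :
    IsCoord z t (X t : MvPowerSeries (KVar s r n) ℂ) := by
  classical
  refine isCoord_of_jet _ _ _ 1 one_ne_zero ?_ ht
  intro l hl
  rw [jet_X]
  congr

theorem jet_eq (l : KVar s r n) (f : MvPowerSeries (KVar s r n) ℂ) :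
    jet l f = TrivSqZeroExt.inl (constantCoeff f) + TrivSqZeroExt.inr (jet l f).snd := by
  rw [← jet_fst l]
  exact (TrivSqZeroExt.inl_fst_add_inr_snd_eq _).symm

section

variable {L : ℕ → Row s r n} {N d : ℕ} (hL : IsWordList L N) (hd : d < N) {hdn : d ≤ n} {lam : ℂ}
  (hlam : lam ≠ 0) (z : KVar s r n)

include hL hd hlam

/-- the coordinates which are not exceptional -/
theorem coord_nonexc (t : KVar s r n) (ht : ¬ IsE L d t) (htz : t ≠ z) :
    ∃ p : MvPolynomial (KVar s r n) ℂ,
      IsCoord z t (MvPolynomial.aeval (ze L N d hdn lam z) p) := by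
  classical
  obtain ⟨row, k⟩ := t
  have hsub : ∀ p : MvPolynomial (KVar s r n) ℂ,
      MvPolynomial.aeval (ze L N d hdn lam z) p = fr L N d lam row k →
      ∃ p : MvPolynomial (KVar s r n) ℂ,
        IsCoord z (row, k) (MvPolynomial.aeval (ze L N d hdn lam z) p) := by
    intro p hp
    refine ⟨p - MvPolynomial.C (if ps L N row = k then cf L d lam k else 0), ?_⟩
    have h5 : ∀ c0 : ℂ, algebraMap ℂ (MvPowerSeries (KVar s r n) ℂ) c0
      = MvPowerSeries.C c0 := fun _ => rfl
    rw [map_sub, hp, MvPolynomial.aeval_C, h5, fr, add_sub_cancel_left]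
    exact isCoord_X z _ htz
  rcases lt_trichotomy (ps L N row) d with h1 | h1 | h1
  · have h2 := L_ps (L := L) (N := N) (row := row) (by have := hL.le; omega)
    refine hsub (word L (ps L N row) k) ?_
    rw [aeval_word hL hd hlam z _ h1.le, ww_lt hL hd hlam _ _ h2.1 h1.ne, h2.2]
  · have h2 := L_ps (L := L) (N := N) (row := row) (by have := hL.le; omega)
    rw [h1] at h2
    obtain ⟨_, rfl⟩ := h2
    have h3 : ¬ d ≤ (k : ℕ) := fun h3 => ht ⟨rfl, h3⟩
    refine ⟨word L d k, ?_⟩
    rw [aeval_word hL hd hlam z d le_rfl, ww, if_pos h1, if_neg h3, add_zero]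
    refine isCoord_of_jet _ _ _ (cf L d lam k) (cf_ne L d hlam _) ?_ htz
    intro l hl
    rw [map_sum]
    have h4 : ∀ a : Fin d, jet l (X (L d, Fin.castLE hdn a) * fr L N d lam (L a) k)
        = TrivSqZeroExt.inr (if l = (L d, Fin.castLE hdn a) ∧ (a : ℕ) = k then cf L d lam k
          else 0) := by
      intro a
      rw [map_mul, jet_X, jet_eq l (fr L N d lam (L a) k), FM.inr_mul_add,
        cc_fr hL hd hlam, ps_L hL (a.2.trans hd)]
      congr 1
      by_cases h5 : l = (L d, Fin.castLE hdn a) <;> by_cases h6 : (a : ℕ) = k <;> simp [h5, h6]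
    simp only [h4]
    rw [Finset.sum_eq_single (⟨k, not_le.1 h3⟩ : Fin d)]
    · have h6 : Fin.castLE hdn (⟨k, not_le.1 h3⟩ : Fin d) = k := Fin.ext rfl
      rw [h6]
      simp
    · intro a _ ha
      rw [if_neg, TrivSqZeroExt.inr_zero]
      rintro ⟨_, h6⟩
      exact ha (Fin.ext h6)
    · intro h0; exact absurd (Finset.mem_univ _) h0
  · rcases row with i | ⟨c, a⟩
    · refine hsub (MvPolynomial.X (Sum.inl i, k)) ?_
      rw [MvPolynomial.aeval_X]
      change ww L N d hdn lam (X z) (Sum.inl i) k = _
      rw [ww, if_neg h1.ne']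
    · by_cases h2 : d ≤ (a : ℕ)
      · refine hsub (MvPolynomial.X (Sum.inr (c, a), k)) ?_
        rw [MvPolynomial.aeval_X, ze_ge hL hd hlam z c a k h2, ww, if_neg h1.ne']
      · refine hsub (∑ i, word L a i * MvPolynomial.X (Sum.inr (c, i), k)) ?_
        have h3 := vv_ze (hdn := hdn) hL hd hlam z c a k
        rw [ww, if_neg h1.ne'] at h3
        rw [← h3, map_sum]
        refine Finset.sum_congr rfl fun i _ => ?_
        rw [map_mul, aeval_word hL hd hlam z a (not_le.1 h2).le, MvPolynomial.aeval_X, vv,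
          Matrix.of_apply, if_pos (not_le.1 h2), ww_lt hL hd hlam _ a (by omega) (by omega)]

theorem descCount_succ : descCount L d (d + 1) = 1 := by
  classical
  rw [descCount, Finset.card_eq_one]
  refine ⟨Fin.last d, ?_⟩
  ext i
  rw [Finset.mem_filter, Finset.mem_singleton]
  constructor
  · rintro ⟨_, h1⟩
    have h2 := isDesc_le L d i h1
    have h3 := i.2
    exact Fin.ext (by simp; omega)
  · rintro rfl
    exact ⟨Finset.mem_univ _, isDesc_self L d⟩

/-- the order of `P_q` along the divisor -/
theorem hasOrd {q : ℕ} (hq : q ≤ N) :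
    HasOrd z (ze L N d hdn lam z) (descCount L d q) (wordMinor L q) := by
  classical
  have hqn : q ≤ n := hq.trans hL.le
  refine ⟨fun J => ?_, wordMinor L q (Fin.castLEOrderEmb hqn),
    Submodule.subset_span ⟨_, rfl⟩, _, cc_lead (hdn := hdn) hL hd hlam z hq hqn, ?_⟩
  · rw [wordMinor, aeval_minor hL hd hlam z hq (fun j => J j)]
    refine Dvd.dvd.mul_right ?_ _
    rw [descCount]
  · rw [wordMinor, aeval_minor hL hd hlam z hq (fun j => Fin.castLEOrderEmb hqn j)]
    congr 1

/-- **The exceptional coordinates are given by the minors of the first `d + 1` words.** -/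
theorem gives (hz : z = (L d, ⟨d, by have := hL.le; omega⟩)) (t : KVar s r n) (ht : t ≠ z)
    (hE : IsE L d t) :
    Gives z (ze L N d hdn lam z) (descCount L d (d + 1)) (wordMinor L (d + 1)) t := by
  classical
  obtain ⟨row, k⟩ := t
  obtain ⟨h1, h2⟩ := hE
  change row = L d at h1
  change d ≤ (k : ℕ) at h2
  subst h1
  have hk : (k : ℕ) ≠ d := by
    intro h3
    apply ht
    rw [hz]
    exact Prod.ext rfl (Fin.ext h3)
  have hsm : StrictMono (Fin.snoc (fun a : Fin d => Fin.castLE hdn a) k :
      Fin (d + 1) → Fin n) := by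
    intro i j hij
    have hj : j ≠ 0 := by
      rintro rfl
      exact absurd hij (Fin.not_lt_zero _)
    induction j using Fin.lastCases with
    | last =>
      induction i using Fin.lastCases with
      | last => exact absurd hij (lt_irrefl _)
      | cast i =>
        rw [Fin.snoc_last, Fin.snoc_castSucc]
        change (i : ℕ) < k
        have := i.2
        omega
    | cast j =>
      induction i using Fin.lastCases with
      | last =>
        exfalso
        have h3 : d < (j : ℕ) := hij
        have := j.2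
        omega
      | cast i =>
        rw [Fin.snoc_castSucc, Fin.snoc_castSucc]
        exact hij
  let J : Fin (d + 1) ↪o Fin n := OrderEmbedding.ofStrictMono _ hsm
  have hJ1 : ∀ i : Fin d, (J i.castSucc : ℕ) = i := by
    intro i
    change ((Fin.snoc (fun a : Fin d => Fin.castLE hdn a) k : Fin (d + 1) → Fin n)
      i.castSucc : ℕ) = i
    rw [Fin.snoc_castSucc]
    rfl
  have hJ2 : J (Fin.last d) = k := by
    change (Fin.snoc (fun a : Fin d => Fin.castLE hdn a) k : Fin (d + 1) → Fin n)
      (Fin.last d) = k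
    rw [Fin.snoc_last]
  choose κ hκ hκ2 using fun i : Fin (d + 1) => cc_bb (hdn := hdn) hL hd hlam z i
    (by have := i.2; omega)
  refine ⟨wordMinor L (d + 1) J, Submodule.subset_span ⟨J, rfl⟩,
    (Matrix.of fun i j : Fin (d + 1) => bb L N d hdn lam z i (J j)).det, ?_, ?_⟩
  · refine isCoord_of_jet _ _ _ (∏ i : Fin d, κ i.castSucc)
      (Finset.prod_ne_zero_iff.2 fun i _ => hκ _) ?_ ht
    intro l hl
    rw [RingHom.map_det, det_offdiag]
    · simp only [RingHom.mapMatrix_apply, Matrix.map_apply, Matrix.of_apply]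
      rw [Fin.prod_univ_castSucc, hJ2]
      have h3 : jet l (bb L N d hdn lam z (Fin.last d : Fin (d + 1)) k)
          = TrivSqZeroExt.inr (if l = (L d, k) then 1 else 0) := by
        rw [Fin.val_last, bb, if_neg (lt_irrefl d), if_pos rfl, if_pos h2, yy, if_neg hk,
          if_neg hk, map_zero, zero_add, jet_X]
      have h4 : ∀ i : Fin d, jet l (bb L N d hdn lam z (i.castSucc : Fin (d + 1)) (J i.castSucc))
          = TrivSqZeroExt.inl (κ i.castSucc) + TrivSqZeroExt.inr
            (jet l (bb L N d hdn lam z (i.castSucc : Fin (d + 1)) (J i.castSucc))).snd := by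
        intro i
        have h5 := jet_eq l (bb L N d hdn lam z (i.castSucc : Fin (d + 1)) (J i.castSucc))
        rw [hκ2 i.castSucc (J i.castSucc),
          if_pos (show (J i.castSucc : ℕ) = ((i.castSucc : Fin (d + 1)) : ℕ) from hJ1 i)] at h5
        exact h5
      have h6 : ∀ y : DualNumber ℂ, y.fst = ∏ i : Fin d, κ i.castSucc →
          y * TrivSqZeroExt.inr (if l = (L d, k) then 1 else 0)
          = TrivSqZeroExt.inr (if l = (L d, k) then ∏ i : Fin d, κ i.castSucc else 0) := by
        intro y hy
        by_cases h7 : l = (L d, k)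
        · rw [if_pos h7, if_pos h7]
          ext
          · simp
          · simp [hy]
        · rw [if_neg h7, if_neg h7]
          simp
      rw [h3]
      refine (h6 _ ?_).trans (by congr)
      have h8 : ∀ x : DualNumber ℂ, x.fst = TrivSqZeroExt.fstHom ℂ ℂ ℂ x := fun _ => rfl
      rw [h8, map_prod]
      refine Finset.prod_congr rfl fun i _ => ?_
      rw [h4 i, ← h8]
      simp
    · intro i j i' j' hij hij'
      have h3 : ∀ i j : Fin (d + 1), i ≠ j →
          constantCoeff (bb L N d hdn lam z i (J j)) = 0 := by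
        intro i j hij
        rw [hκ2 i (J j), if_neg]
        intro h4
        induction j using Fin.lastCases with
        | last =>
          rw [hJ2] at h4
          have := i.2
          omega
        | cast j =>
          rw [hJ1] at h4
          exact hij (Fin.ext h4.symm)
      rw [RingHom.mapMatrix_apply, Matrix.map_apply, Matrix.map_apply, Matrix.of_apply,
        Matrix.of_apply, jet_eq l (bb L N d hdn lam z i (J j)),
        jet_eq l (bb L N d hdn lam z i' (J j')), h3 i j hij, h3 i' j' hij']
      simp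
  · rw [wordMinor, aeval_minor hL hd hlam z (by omega : d + 1 ≤ N) (fun j => J j)]
    rfl

end

/-- **The roots which come from the divisor of index `d`.** -/
theorem roots_d {L : ℕ → Row s r n} {N d : ℕ} (hL : IsWordList L N) (hd : d < N) {τ : Type}
    [Fintype τ] [DecidableEq τ] (q : τ → ℕ) (hq : ∀ x, q x ≤ N) (x0 : τ) (h0 : q x0 = d + 1)
    (b : Polynomial ℂ) (H : MvPolynomial (KVar s r n) ℂ)
    (hb : Pool.Agent.W574.LM.IsLocEq H (prodFam fun x => wordMinor L (q x)) b)
    (hH : MvPolynomial.constantCoeff H ≠ 0) (l : ℕ) (hl : l < ∑ x, descCount L d (q x)) :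
    b.eval (-(((n - d : ℕ) : ℂ) + l) / (∑ x, descCount L d (q x) : ℕ)) = 0 := by
  classical
  have hn := hL.le
  have hdn : d ≤ n := by omega
  obtain ⟨lam, hlam, hlH⟩ := exists_scale H hH (fun t : KVar s r n =>
    if ps L N t.1 = t.2 ∧ (t.2 : ℕ) ≠ d then 1 else 0)
  let z : KVar s r n := (L d, ⟨d, by omega⟩)
  obtain ⟨U0, hU0, hJ⟩ := jac (hdn := hdn) hL hd hlam z rfl
  have hord : ∀ x, HasOrd z (ze L N d hdn lam z) (descCount L d (q x)) (wordMinor L (q x)) :=
    fun x => hasOrd hL hd hlam z (hq x)
  obtain ⟨_, F, _, U, hU, hFU⟩ := hasOrd (hdn := hdn) hL hd hlam z (q := d + 1) hd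
  rw [descCount_succ hL hd hlam] at hFU
  have h4 : ((n - d - 1 : ℕ) : ℂ) + 1 = ((n - d : ℕ) : ℂ) := by
    have h5 : n - d - 1 + 1 = n - d := by omega
    exact_mod_cast h5
  rw [← h4]
  refine rees_span _ b H hb z (ze L N d hdn lam z) ?_ (n - d - 1) _ l hl U0 (U ^ l) hU0 ?_ hJ
    (hasOrd_prod _ _ _ _ hord) (F ^ l) ?_ ?_
  · rw [cc_aeval]
    have h5 : (fun t => constantCoeff (ze L N d hdn lam z t))
        = fun t : KVar s r n => lam * (if ps L N t.1 = t.2 ∧ (t.2 : ℕ) ≠ d then 1 else 0) := by
      funext t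
      rw [cc_ze hL hd hlam]
    rw [h5]
    exact hlH
  · rw [map_pow]
    exact pow_ne_zero _ hU
  · rw [map_pow, hFU, mul_pow, pow_one]
  · intro t ht
    by_cases hE : IsE L d t
    · right
      refine gives_prod _ _ _ _ hord x0 t ?_
      have h6 := gives (hdn := hdn) hL hd hlam z rfl t ht hE
      rw [← h0] at h6
      exact h6
    · left
      exact coord_nonexc hL hd hlam z t hE ht

end Pool.Agent.J6H66.KR
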