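import Mathlib

set_option autoImplicit false

/-! # Words in generic matrices, applied to generic vectors -/

namespace Pool.Agent.J6H66.KR

/-- The rows of `s` generic row vectors `v_i` and `r` generic `n × n` matrices `X_c`: the vector
`v_i`, and the row `a` of `X_c`. -/
abbrev Row (s r n : ℕ) : Type := Fin s ⊕ (Fin r × Fin n)

/-- The variables: the entries `k < n` of the rows. -/
abbrev KVar (s r n : ℕ) : Type := Row s r n × Fin n

variable {s r n : ℕ}

/-- The row vectors `w_ρ` of a list `L`: `w_ρ = v_i` if `L ρ` is the vector `v_i`, and `w_ρ = w_a X_c`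
if `L ρ` is the row `a` of `X_c`, `a < ρ`. -/
noncomputable def word (L : ℕ → Row s r n) (ρ : ℕ) (k : Fin n) : MvPolynomial (KVar s r n) ℂ :=
  match L ρ with
  | Sum.inl i => MvPolynomial.X (Sum.inl i, k)
  | Sum.inr (c, a) =>
    if _h : (a : ℕ) < ρ then ∑ i, word L a i * MvPolynomial.X (Sum.inr (c, i), k) else 0
termination_by ρ

/-- The conditions for the list `L` of the words `w_0, …, w_(N-1)`: the entries are distinct, and if
`w_ρ = w_a X_c` then `a < ρ` and all `w_b X_c`, `b < a`, occur before `w_ρ`. -/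
structure IsWordList (L : ℕ → Row s r n) (N : ℕ) : Prop where
  le : N ≤ n
  inj : ∀ ρ < N, ∀ ρ' < N, L ρ = L ρ' → ρ = ρ'
  lt : ∀ ρ < N, ∀ c a, L ρ = Sum.inr (c, a) → (a : ℕ) < ρ
  before : ∀ ρ < N, ∀ c a, L ρ = Sum.inr (c, a) → ∀ b : Fin n, (b : ℕ) < a →
    ∃ ρ' < ρ, L ρ' = Sum.inr (c, b)

theorem word_inl (L : ℕ → Row s r n) (ρ : ℕ) (i : Fin s) (h : L ρ = Sum.inl i) (k : Fin n) :
    word L ρ k = MvPolynomial.X (Sum.inl i, k) := by
  rw [word, h]

theorem word_inr (L : ℕ → Row s r n) (ρ : ℕ) (c : Fin r) (a : Fin n)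
    (h : L ρ = Sum.inr (c, a)) (ha : (a : ℕ) < ρ) (k : Fin n) :
    word L ρ k = ∑ i, word L a i * MvPolynomial.X (Sum.inr (c, i), k) := by
  rw [word, h]
  exact dif_pos ha

/-- `ρ` is a descendant of `d`: `w_ρ = w_d X_(c_1) ⋯ X_(c_l)`, `l ≥ 0`. -/
def IsDesc (L : ℕ → Row s r n) (d ρ : ℕ) : Prop :=
  ρ = d ∨ match L ρ with
    | Sum.inl _ => False
    | Sum.inr (_, a) => if _h : (a : ℕ) < ρ then IsDesc L d a else False
termination_by ρ

theorem isDesc_self (L : ℕ → Row s r n) (d : ℕ) : IsDesc L d d := by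
  rw [IsDesc]
  exact Or.inl rfl

theorem isDesc_inl (L : ℕ → Row s r n) (d ρ : ℕ) (i : Fin s) (h : L ρ = Sum.inl i) :
    IsDesc L d ρ ↔ ρ = d := by
  rw [IsDesc, h]
  simp

theorem isDesc_inr (L : ℕ → Row s r n) (d ρ : ℕ) (c : Fin r) (a : Fin n)
    (h : L ρ = Sum.inr (c, a)) (ha : (a : ℕ) < ρ) :
    IsDesc L d ρ ↔ ρ = d ∨ IsDesc L d a := by
  rw [IsDesc, h]
  simp only [dif_pos ha]

theorem isDesc_le (L : ℕ → Row s r n) (d ρ : ℕ) (h : IsDesc L d ρ) : d ≤ ρ := by
  induction ρ using Nat.strong_induction_on with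
  | _ ρ ih =>
    rw [IsDesc] at h
    rcases h with h | h
    · exact h.ge
    · split at h
      · exact h.elim
      · split_ifs at h with h1
        · exact (ih _ h1 h).trans h1.le

end Pool.Agent.J6H66.KR
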